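import Mathlib
import Pool.Agent.H618.GZ.GapTwo

/-!
# The gcd recursion with `n ^ p - 1`: the distance between zeros

Between two consecutive zeros `n < n'` the recursion descends from `(n + 1) ^ p - 1` to `0` by the
gcds `γ k = gcd (a (k - 1), k ^ p - 1)`. These may be as large as `a` itself, so that a priori only
`n' - n ≫ log n` is clear. If `γ k` and `γ m` are two of the gcds then `γ k γ m` divides
`a k (m ^ p - 1) - a (m - 1) (k ^ p - 1)`, which for slowly varying `k ^ p` forces the gcds between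
them to add up to at least `γ k γ m / (4 n ^ p)`. This gives a Farey tree of large gcds with
`≫ (log n) ^ 2` members.
-/

set_option autoImplicit false

namespace Pool.Agent.Results.MP_e7655a_nt.ZeroDistance

/-- For every prime `p` there are `n₀` and `C` such that for the recursion of the problem (whatever
`a 1` is) any two zeros `n < n'` with `n ≥ n₀` satisfy `n' - n ≥ (log n) ^ 2 / 72000`, and the
number of zeros up to `x` is at most `C x / (log x) ^ 2` for every `x ≥ 2`. -/
theorem result :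
    ∀ p : ℕ, p.Prime → ∃ n₀ : ℕ, ∃ C : ℝ, ∀ a : ℕ → ℤ,
      (∀ n : ℕ, 2 ≤ n →
        a n = |a (n - 1) - ((Int.gcd (a (n - 1)) ((n : ℤ) ^ p - 1) : ℕ) : ℤ)|) →
      (∀ n n' : ℕ, n₀ ≤ n → n < n' → a n = 0 → a n' = 0 →
        (Real.log n) ^ 2 / 72000 ≤ (n' : ℝ) - n) ∧
      (∀ x : ℕ, 2 ≤ x →
        (((Finset.Icc 1 x).filter (fun n => a n = 0)).card : ℝ) ≤
          C * x / (Real.log x) ^ 2) := by
  intro p hp
  obtain ⟨q, rfl⟩ : ∃ q, p = q + 1 := ⟨p - 1, by have := hp.pos; omega⟩
  obtain ⟨n₀, hn₀⟩ := Pool.Agent.H618.GZ.gap3 q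
  obtain ⟨C, hC⟩ := Pool.Agent.H618.GZ.count q
  exact ⟨n₀, C, fun a ha => ⟨hn₀ a ha, hC a ha⟩⟩

end Pool.Agent.Results.MP_e7655a_nt.ZeroDistance
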